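import Pool.Agent.Lib.MP_952639_co.Classes3
import Pool.Agent.Lib.MP_952639_co.Sampling
import Pool.Agent.Lib.MP_952639_co.Tiling
import Pool.Agent.Lib.MP_952639_co.Connect
import Pool.Agent.Lib.MP_952639_co.Cycle

/-!
# Two tight cycles of different colours cover almost all vertices

For every uniformity `r` and every 2-colouring of the complete `r`-uniform hypergraph on `n`
vertices there are vertex-disjoint red and blue tight cycles covering all but `ε n` vertices, once
`n` is large in terms of `r` and `ε`.
-/

namespace Pool.Agent.Results.MP_952639_co.AlmostCover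

open Finset
open Pool.Agent.Lib.MP_952639_co

/-- `v` lists the vertices of a tight path all of whose edges have colour `κ`: the entries of `v`
are distinct, and every set of `r` consecutive entries has colour `κ`.  (No condition if `v` has
fewer than `r` entries.) -/
def IsMonoTightPath {V : Type*} [DecidableEq V] (r : ℕ) (c : Finset V → Bool) (κ : Bool)
    (v : List V) : Prop :=
  v.Nodup ∧ ∀ i, i + r ≤ v.length → c ((v.drop i).take r).toFinset = κ

/-- `v` lists the vertices of a tight cycle all of whose edges have colour `κ`: the entries of `v`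
are distinct, `v` is empty or has more than `r` entries, and every set of `r` cyclically
consecutive entries has colour `κ`. -/
def IsMonoTightCycle {V : Type*} [DecidableEq V] (r : ℕ) (c : Finset V → Bool) (κ : Bool)
    (v : List V) : Prop :=
  v.Nodup ∧ (v = [] ∨ r < v.length) ∧ ∀ i < v.length, c ((v.rotate i).take r).toFinset = κ

/-- A nonempty tight cycle is in particular a tight path. -/
lemma IsMonoTightCycle.path {V : Type*} [DecidableEq V] {r : ℕ} (hr : 1 ≤ r)
    {c : Finset V → Bool} {κ : Bool} {v : List V} (h : IsMonoTightCycle r c κ v) :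
    IsMonoTightPath r c κ v := by
  refine ⟨h.1, fun i hi => ?_⟩
  have h1 := h.2.2 i (by omega)
  rw [List.rotate_eq_drop_append_take (by omega), List.take_append_of_le_length] at h1
  · exact h1
  · rw [List.length_drop]; omega

lemma cycle_of_isCyc {V : Type*} [Fintype V] [DecidableEq V] {r : ℕ} (hr : 1 ≤ r)
    {c : Finset V → Bool} {κ : Bool} {P : List (Fin r → V)} (h : IsCyc c P)
    (hP : ∀ h : P ≠ [], Col c κ (P.head h)) (hlen : P ≠ [] → 2 ≤ P.length)
    (hnd : (flat P).Nodup) : IsMonoTightCycle r c κ (flat P) := by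
  refine ⟨hnd, ?_, fun i hi => windows_of_isCyc h hP i hi⟩
  by_cases h0 : P = []
  · left; rw [h0]; rfl
  · right
    rw [flat_length]
    have := hlen h0
    nlinarith

theorem result (r : ℕ) (hr : 1 ≤ r) (ε : ℝ) (hε : 0 < ε) :
    ∃ n₀ : ℕ, ∀ n ≥ n₀, ∀ c : Finset (Fin n) → Bool, ∃ R B : List (Fin n),
      IsMonoTightCycle r c true R ∧ IsMonoTightCycle r c false B ∧
      IsMonoTightPath r c true R ∧ IsMonoTightPath r c false B ∧
      (R ++ B).Nodup ∧ (1 - ε) * n ≤ R.length + B.length := by
  classical
  obtain ⟨κ, hκ0, hκr, htil⟩ := exists_tiling r hr (ε / 2) (by positivity)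
  obtain ⟨δ, β, n₁, hδ, hβ, hrob⟩ := exists_robust_pair r hr κ hκ0 hκr
  obtain ⟨cc, L, hcc, hcls⟩ := exists_classes r hr δ hδ
  obtain ⟨ν, n₂, hν, hcyc⟩ := exists_cycles r hr cc hcc L (ε / 2) (by positivity)
  obtain ⟨n₃, htil⟩ := htil β hβ ν hν
  refine ⟨n₁ + n₂ + n₃ + 1, ?_⟩
  intro n hn c
  have hcard : Fintype.card (Fin n) = n := Fintype.card_fin n
  have : Nonempty (Fin n) := ⟨⟨0, by omega⟩⟩
  obtain ⟨cls, l, hl1, hlL, hinj, hexc, hcr, hconn⟩ := hcls (Fin n) c
  obtain ⟨x, y, hx, hy, hxy, hR⟩ := hrob (Fin n) (by rw [hcard]; omega) c cls hinj hexc hcr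
  -- tuples of one class have one colour
  have hVpos : 0 < Fintype.card (Fin n) := Fintype.card_pos
  have hsame : ∀ u w : Fin r → Fin n, cls u ≠ 0 → cls u = cls w →
      c (univ.image u) = c (univ.image w) := by
    intro u w hu huw
    have h1 := hconn u w hu huw
    obtain ⟨m, rfl⟩ : ∃ m, l = m + 1 := ⟨l - 1, by omega⟩
    have h2 : (0 : ℝ) < Fintype.card (Fin n) := by exact_mod_cast hVpos
    obtain ⟨κ', h3, h4⟩ := AMpow_pos_col m u w (lt_of_lt_of_le (by positivity) h1)
    rw [h3.2, h4.2]
  -- the two families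
  let A : Bool → Finset (Fin r → Fin n) := fun b =>
    if b then univ.filter fun u => cls u = cls x
    else if cls x = cls y then ∅ else univ.filter fun u => cls u = cls y
  have hAtrue : ∀ u, u ∈ A true ↔ cls u = cls x := by intro u; simp [A]
  have hAfalse : ∀ u, u ∈ A false ↔ cls u = cls y ∧ cls x ≠ cls y := by
    intro u
    by_cases h : cls x = cls y
    · simp [A, h]
    · simp [A, h]
  have hAcls : ∀ b, ∀ u ∈ A b, cls u ≠ 0 := by
    intro b u hu
    cases b with
    | true => rw [(hAtrue u).mp hu]; exact hx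
    | false => rw [((hAfalse u).mp hu).1]; exact hy
  have hAeq : ∀ b, ∀ u ∈ A b, ∀ w ∈ A b, cls u = cls w := by
    intro b u hu w hw
    cases b with
    | true => rw [(hAtrue u).mp hu, (hAtrue w).mp hw]
    | false => rw [((hAfalse u).mp hu).1, ((hAfalse w).mp hw).1]
  have hRA : Robust κ β A := by
    intro z h0 h1 h2
    refine (hR z h0 h1 h2).trans (le_of_eq ?_)
    congr 2
    congr 1
    ext u
    rw [mem_union, mem_union, hAtrue, hAfalse]
    simp only [mem_filter, mem_univ, true_and, if_true]
    by_cases h : cls x = cls y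
    · simp [h]
    · simp [h]
  obtain ⟨T, b, D, m, hT, hDm, hDd, hDA, hcov⟩ := htil (Fin n) (by rw [hcard]; omega) A
    (fun b u hu => hinj u (hAcls b u hu)) hRA
  obtain ⟨P, hP1, hP2, hP3, hP4⟩ := hcyc (Fin n) (by rw [hcard]; omega) c A l hl1 hlL
    (fun b u hu => ⟨_, hinj u (hAcls b u hu), rfl⟩)
    (fun b u hu w hw => hsame u w (hAcls b u hu) (hAeq b u hu w hw))
    (fun b u hu w hw => hconn u w (hAcls b u hu) (hAeq b u hu w hw))
    T b D m hT hDm hDd hDA
  rw [hcard] at hcov hP4
  have hP3' : (flat (P true) ++ flat (P false)).Nodup := by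
    rw [← flat_append]; exact hP3
  have hlen : (((P true ++ P false).flatMap List.ofFn).length : ℝ) =
      (flat (P true)).length + (flat (P false)).length := by
    have : (P true ++ P false).flatMap List.ofFn = flat (P true ++ P false) := rfl
    rw [this, flat_append, List.length_append, Nat.cast_add]
  rw [hlen] at hP4
  have hnd1 : (flat (P true)).Nodup := (List.nodup_append.mp hP3').1
  have hnd2 : (flat (P false)).Nodup := (List.nodup_append.mp hP3').2.1
  -- colours
  have hcolT : ∀ h : P true ≠ [], Col c (c (univ.image x)) ((P true).head h) := by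
    intro h
    have h1 := (hP2 true h).1
    refine ⟨hinj _ (hAcls _ _ h1), ?_⟩
    exact hsame _ _ (hAcls _ _ h1) ((hAtrue _).mp h1)
  have hcolF : ∀ h : P false ≠ [], Col c (!c (univ.image x)) ((P false).head h) := by
    intro h
    have h1 := (hP2 false h).1
    refine ⟨hinj _ (hAcls _ _ h1), ?_⟩
    have h2 := (hAfalse _).mp h1
    rw [hsame _ _ (hAcls _ _ h1) h2.1]
    have h3 : c (univ.image x) ≠ c (univ.image y) := by
      rcases hxy with h | h
      · exact absurd h h2.2
      · exact h
    revert h3
    cases c (univ.image x) <;> cases c (univ.image y) <;> simp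
  have hC1 := cycle_of_isCyc hr (hP1 true) hcolT (fun h => (hP2 true h).2) hnd1
  have hC2 := cycle_of_isCyc hr (hP1 false) hcolF (fun h => (hP2 false h).2) hnd2
  have hfin : (1 - ε) * n ≤ (flat (P true)).length + (flat (P false)).length := by linarith
  cases hc : c (univ.image x) with
  | true =>
    rw [hc] at hC1 hC2
    exact ⟨flat (P true), flat (P false), hC1, hC2, hC1.path hr, hC2.path hr, hP3', hfin⟩
  | false =>
    rw [hc] at hC1 hC2
    refine ⟨flat (P false), flat (P true), hC2, hC1, hC2.path hr, hC1.path hr, ?_, ?_⟩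
    · exact (List.perm_append_comm.nodup_iff).mp hP3'
    · linarith

end Pool.Agent.Results.MP_952639_co.AlmostCover
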