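import Pool.Agent.Lib.MP_952639_co.TreeW

/-!
# Two adjacent monochromatic tight components carry a perfect fractional matching

For every 2-colouring of the `r`-subsets of a finite set and every demand in the cone of the
`r`-sets, some red tight component and some blue tight component together carry a fractional
matching that meets the demand exactly.
-/

namespace Pool.Agent.Lib.MP_952639_co.Old.FractionalCover

open Finset
open Pool.Agent.Lib.MP_952639_co

/-- `C` is a monochromatic tight component of colour `κ`: the set of all `r`-sets that can be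
reached from some `r`-set `e` of colour `κ` by exchanging one vertex at a time through `r`-sets of
colour `κ`. -/
def IsTightComponent {V : Type*} [DecidableEq V] (r : ℕ) (c : Finset V → Bool) (κ : Bool)
    (C : Finset (Finset V)) : Prop :=
  ∃ e : Finset V, e.card = r ∧ c e = κ ∧ ∀ g, g ∈ C ↔ Conn c r e g

open Classical in
/-- The edges reachable from `e`. -/
noncomputable def comp {V : Type*} [Fintype V] [DecidableEq V] (r : ℕ) (c : Finset V → Bool)
    (e : Finset V) : Finset (Finset V) := univ.filter fun g => Conn c r e g

lemma mem_comp {V : Type*} [Fintype V] [DecidableEq V] {r : ℕ} {c : Finset V → Bool}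
    {e g : Finset V} : g ∈ comp r c e ↔ Conn c r e g := by
  classical
  unfold comp
  simp

/-- The primal form of the fractional theorem for one union of components. -/
lemma primal {V : Type*} [Fintype V] [DecidableEq V] {r : ℕ} (hr : 1 ≤ r) (w : V → ℝ)
    (hw0 : ∀ v, 0 ≤ w v) (C : Finset (Finset V)) (hC : ∀ g ∈ C, g.card = r)
    (hdual : ∀ l : V → ℝ, ∑ v, w v * l v < 0 → ∃ g ∈ C, ∑ v ∈ g, l v < 0) :
    ∃ y : Finset V → ℝ, (∀ g, 0 ≤ y g) ∧ (∀ g, y g ≠ 0 → g ∈ C) ∧
      ∀ v, ∑ g ∈ C with v ∈ g, y g = w v := by
  classical
  have hr0 : (0 : ℝ) < r := by exact_mod_cast hr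
  set W : ℝ := ∑ v, w v with hW
  have hW0 : 0 ≤ W := sum_nonneg fun v _ => hw0 v
  rcases hW0.eq_or_lt with hW00 | hWpos
  · -- no demand
    have hz : ∀ v, w v = 0 := by
      have := (sum_eq_zero_iff_of_nonneg (fun v _ => hw0 v)).mp hW00.symm
      intro v; exact this v (mem_univ _)
    exact ⟨fun _ => 0, fun _ => le_rfl, fun g h => absurd rfl h, fun v => by simp [hz v]⟩
  · let ind : Finset V → (V → ℝ) := fun g v => if v ∈ g then 1 else 0
    set s : Finset (V → ℝ) := C.image ind with hs
    let p : V → ℝ := fun v => r / W * w v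
    have hp : p ∈ convexHull ℝ (s : Set (V → ℝ)) := by
      by_contra hnot
      have hcl : IsClosed (convexHull ℝ (s : Set (V → ℝ))) :=
        (s.finite_toSet).isClosed_convexHull ℝ
      obtain ⟨F, u, hF1, hF2⟩ := geometric_hahn_banach_point_closed
        (convex_convexHull ℝ (s : Set (V → ℝ))) hcl hnot
      let a : V → ℝ := fun v => F (Pi.single v 1)
      have hFa : ∀ x : V → ℝ, F x = ∑ v, x v * a v := by
        intro x
        have hx : x = ∑ v, x v • (Pi.single v (1 : ℝ) : V → ℝ) := by
          funext v'
          simp [Finset.sum_apply, Pi.single_apply]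
        conv_lhs => rw [hx]
        rw [map_sum]
        refine sum_congr rfl fun v _ => ?_
        rw [map_smul, smul_eq_mul]
      let l : V → ℝ := fun v => a v - u / r
      have h1 : ∑ v, w v * l v < 0 := by
        have h2 : F p = r / W * ∑ v, w v * a v := by
          rw [hFa, mul_sum]
          exact sum_congr rfl fun v _ => by simp only [p]; ring
        rw [h2] at hF1
        have h3 : ∑ v, w v * l v = ∑ v, w v * a v - u / r * W := by
          rw [hW, mul_sum, ← sum_sub_distrib]
          exact sum_congr rfl fun v _ => by simp only [l]; ring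
        rw [h3]
        have h4 : ∑ v, w v * a v < u / r * W := by
          have h5 : (∑ v, w v * a v) = (r / W * ∑ v, w v * a v) * (W / r) := by field_simp
          rw [h5]
          calc (r / W * ∑ v, w v * a v) * (W / r) < u * (W / r) :=
                mul_lt_mul_of_pos_right hF1 (by positivity)
            _ = u / r * W := by ring
        linarith
      obtain ⟨g, hg, hlg⟩ := hdual l h1
      have h6 := hF2 (ind g) (subset_convexHull ℝ _ (mem_coe.mpr (mem_image_of_mem _ hg)))
      have h7 : F (ind g) = ∑ v ∈ g, a v := by
        rw [hFa]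
        simp only [ind, ite_mul, one_mul, zero_mul]
        rw [sum_ite_mem, univ_inter]
      rw [h7] at h6
      have h8 : ∑ v ∈ g, l v = ∑ v ∈ g, a v - u := by
        simp only [l]
        rw [sum_sub_distrib, sum_const, hC g hg, nsmul_eq_mul]
        congr 1
        field_simp
      linarith
    rw [Finset.mem_convexHull'] at hp
    obtain ⟨q, hq0, hq1, hq2⟩ := hp
    have hinj : Function.Injective ind := by
      intro g g' h
      ext v
      have := congrFun h v
      simp only [ind] at this
      by_cases h1 : v ∈ g <;> by_cases h2 : v ∈ g' <;> simp_all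
    refine ⟨fun g => if g ∈ C then W / r * q (ind g) else 0, ?_, ?_, ?_⟩
    · intro g
      simp only
      split_ifs with hg
      · exact mul_nonneg (by positivity) (hq0 _ (mem_image_of_mem _ hg))
      · exact le_rfl
    · intro g hg
      by_contra h
      simp [h] at hg
    · intro v
      have h1 := congrFun hq2 v
      rw [Finset.sum_apply, hs, sum_image (fun x _ y _ h => hinj h)] at h1
      simp only [Pi.smul_apply, smul_eq_mul, ind, p, mul_ite, mul_one, mul_zero] at h1
      rw [← sum_filter] at h1
      rw [sum_congr rfl (fun g hg => if_pos (mem_filter.mp hg).1), ← mul_sum]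
      rw [h1]
      field_simp

/-- **Fractional form of the two-path problem, for every uniformity.**  For every 2-colouring of
the `r`-subsets of a finite set `V` with at least `r` elements, and every demand `w ≥ 0` with
`r * w v ≤ ∑ w` for all `v` (for instance `w = 1`), there are a red tight component `R` and a blue
tight component `B` (one of them may be missing; if both are present they are adjacent) and a
nonnegative weighting `y` of the edges in `R ∪ B` whose weights at each vertex `v` sum up to
exactly `w v`. -/
theorem result {V : Type*} [Fintype V] [DecidableEq V] (r : ℕ) (hr : 1 ≤ r)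
    (hV : r ≤ Fintype.card V) (c : Finset V → Bool) (w : V → ℝ) (hw0 : ∀ v, 0 ≤ w v)
    (hw : ∀ v, (r : ℝ) * w v ≤ ∑ u, w u) :
    ∃ R B : Finset (Finset V),
      (R = ∅ ∨ IsTightComponent r c true R) ∧ (B = ∅ ∨ IsTightComponent r c false B) ∧
      (R ≠ ∅ → B ≠ ∅ → ∃ e ∈ R, ∃ f ∈ B, JAdj r e f) ∧
      ∃ y : Finset V → ℝ, (∀ g, 0 ≤ y g) ∧ (∀ g, y g ≠ 0 → g ∈ R ∪ B) ∧
        ∀ v, ∑ g ∈ R ∪ B with v ∈ g, y g = w v := by
  classical
  obtain ⟨e, f, he, hf, hef, hl⟩ := tree_lemma_w r hr hV w hw0 hw c
  have hrefl : ∀ g : Finset V, g ∈ comp r c g := fun g => mem_comp.mpr Relation.ReflTransGen.refl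
  have hcard : ∀ g ∈ comp r c e ∪ comp r c f, g.card = r := by
    intro g hg
    rcases mem_union.mp hg with h | h
    · exact (mem_comp.mp h).card he
    · exact (mem_comp.mp h).card hf
  obtain ⟨y, hy0, hy1, hy2⟩ := primal hr w hw0 (comp r c e ∪ comp r c f) hcard (by
    intro l hl'
    obtain ⟨g, hg, hlg⟩ := hl l hl'
    refine ⟨g, ?_, hlg⟩
    rw [mem_union, mem_comp, mem_comp]
    exact hg)
  rcases hef with rfl | ⟨hadj, hcol⟩
  · -- one component
    rw [union_self] at hy1 hy2
    cases hc : c e with
    | true =>
      refine ⟨comp r c e, ∅, Or.inr ⟨e, he, hc, fun g => mem_comp⟩, Or.inl rfl,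
        fun _ h => absurd rfl h, y, hy0, ?_, ?_⟩
      · rw [union_empty]; exact hy1
      · rw [union_empty]; exact hy2
    | false =>
      refine ⟨∅, comp r c e, Or.inl rfl, Or.inr ⟨e, he, hc, fun g => mem_comp⟩,
        fun h => absurd rfl h, y, hy0, ?_, ?_⟩
      · rw [empty_union]; exact hy1
      · rw [empty_union]; exact hy2
  · cases hc : c e with
    | true =>
      have hc' : c f = false := by
        rw [hc] at hcol
        cases h : c f
        · rfl
        · exact absurd h.symm hcol
      exact ⟨comp r c e, comp r c f, Or.inr ⟨e, he, hc, fun g => mem_comp⟩,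
        Or.inr ⟨f, hf, hc', fun g => mem_comp⟩,
        fun _ _ => ⟨e, hrefl e, f, hrefl f, hadj⟩, y, hy0, hy1, hy2⟩
    | false =>
      have hc' : c f = true := by
        rw [hc] at hcol
        cases h : c f
        · exact absurd h.symm hcol
        · rfl
      refine ⟨comp r c f, comp r c e, Or.inr ⟨f, hf, hc', fun g => mem_comp⟩,
        Or.inr ⟨e, he, hc, fun g => mem_comp⟩,
        fun _ _ => ⟨f, hrefl f, e, hrefl e, hadj.symm⟩, y, hy0, ?_, ?_⟩
      · rw [union_comm]; exact hy1
      · rw [union_comm]; exact hy2

end Pool.Agent.Lib.MP_952639_co.Old.FractionalCover
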